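import Mathlib

/-! # Second derivative test at a local minimum (helper852, MP_39d7ff_an, lemma (A)) -/

set_option autoImplicit false
open Filter Topology Set

namespace Run7.h749.TB

theorem min_test (g g1 : ℝ → ℝ) (g2 t : ℝ) (h1 : ∀ s, HasDerivAt g (g1 s) s)
    (h2 : HasDerivAt g1 g2 t) (hm : IsLocalMin g t) : g1 t = 0 ∧ 0 ≤ g2 := by
  have h0 : g1 t = 0 := hm.hasDerivAt_eq_zero (h1 t)
  refine ⟨h0, ?_⟩
  by_contra hneg
  push Not at hneg
  have hs := hasDerivAt_iff_tendsto_slope.1 h2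
  have hev : ∀ᶠ s in 𝓝[≠] t, slope g1 t s < 0 := hs.eventually_lt_const hneg
  have hev2 : ∀ᶠ s in 𝓝[>] t, g1 s < 0 := by
    have h3 : ∀ᶠ s in 𝓝[>] t, slope g1 t s < 0 :=
      hev.filter_mono (nhdsWithin_mono t (fun s hs => ne_of_gt hs))
    filter_upwards [h3, self_mem_nhdsWithin] with s hs1 hs2
    have hst : 0 < s - t := sub_pos.2 hs2
    rw [slope_def_field, h0, sub_zero, div_lt_iff₀ hst, zero_mul] at hs1
    exact hs1
  obtain ⟨b, hb, hb2⟩ := (mem_nhdsGT_iff_exists_Ioo_subset).1 hev2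
  obtain ⟨l, u, hlu, hmm⟩ := (mem_nhds_iff_exists_Ioo_subset).1 hm
  have htb : t < b := hb
  have hx1 : t < (t + min b u) / 2 := by
    have : t < min b u := lt_min htb hlu.2
    linarith
  have hx2 : (t + min b u) / 2 < min b u := by
    have : t < min b u := lt_min htb hlu.2
    linarith
  set x := (t + min b u) / 2 with hx
  have hxb : x < b := lt_of_lt_of_le hx2 (min_le_left _ _)
  have hxu : x < u := lt_of_lt_of_le hx2 (min_le_right _ _)
  obtain ⟨c, hc, hc2⟩ := exists_hasDerivAt_eq_slope g g1 hx1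
    (fun s _ => (h1 s).continuousAt.continuousWithinAt) (fun s _ => h1 s)
  have hcneg : g1 c < 0 := hb2 ⟨hc.1, lt_trans hc.2 hxb⟩
  have hgx : g t ≤ g x := hmm ⟨lt_trans hlu.1 hx1, hxu⟩
  rw [hc2] at hcneg
  have : 0 ≤ (g x - g t) / (x - t) := div_nonneg (by linarith) (by linarith)
  linarith

end Run7.h749.TB
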